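import Mathlib
import Pool.Agent.H92.TD.Defs
import Pool.Agent.H92.TD.Claw2

/-!
MP_5aa732_co, project TF92: odd-hole-free fork-free graphs are 2-divisible.
-/

set_option autoImplicit false
set_option linter.unusedSectionVars false
set_option linter.unusedVariables false

namespace Pool.Agent.H92.TF

open SimpleGraph Finset Pool.Agent.H92.TD

/-- No induced fork (claw `v; a, b, c` with the edge `v c` extended by `c d`). -/
def Forkfree {V : Type} (G : SimpleGraph V) : Prop :=
  ∀ v a b c d : V, G.Adj v a → G.Adj v b → G.Adj v c → G.Adj c d → a ≠ b → b ≠ c → a ≠ c →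
    ¬ G.Adj a b → ¬ G.Adj b c → ¬ G.Adj a c →
    d ≠ v → ¬ G.Adj d v → ¬ G.Adj d a → ¬ G.Adj d b → False

/-- All homogeneous sets are trivial. -/
def PrimeG {V : Type} [Fintype V] (G : SimpleGraph V) : Prop :=
  ∀ D : Finset V, (∀ w, w ∉ D → (∀ x ∈ D, G.Adj w x) ∨ (∀ x ∈ D, ¬ G.Adj w x)) →
    2 ≤ D.card → D = Finset.univ

/-- Every proper induced subgraph has 2-divisions (for its own clique number `n + 1`). -/
def SubDiv {V : Type} [Fintype V] (G : SimpleGraph V) : Prop :=
  ∀ D : Finset V, D ≠ Finset.univ → ∀ n : ℕ, 1 ≤ n → (∀ K : Finset V, K ⊆ D → ¬ G.IsNClique (n + 2) K) →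
    ∃ c : V → Bool, ∀ K : Finset V, K ⊆ D → G.IsNClique (n + 1) K → ∀ b : Bool, ¬ ∀ x ∈ K, c x = b

end Pool.Agent.H92.TF
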