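import Mathlib
import Pool.Agent.H92.TD.Defs
import Pool.Agent.H92.TD.Claw2
import Pool.Agent.H92.TF.FDefs

/-!
Row TF_Fork.  A fork-free graph whose homogeneous sets are trivial has no induced claw + K_2.
PROOF.  Let v; a, b, c be a claw and k ~ l an edge anticomplete to it.  M0 := set of all x nonadjacent to v, a, b, c (then automatically x ≠ a, b, c because v ~ a etc.; also require x ≠ v).
A subset D of M0 is CLOSED if k ∈ D and there is no edge between D and M0 \\ D.  M0 is closed.  Let D be a closed set of least cardinality (`Finset.exists_min_image` on powerset filter).  l ∈ D (l ∈ M0, l ~ k).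
CLAIM: D is homogeneous.  Let w ∉ D, and suppose w has a neighbour and a nonneighbour in D.  Then there are x, u ∈ D with x ~ u, w ~ x, w ≁ u: otherwise there is no edge between D ∩ N(w) and D \\ N(w), both
 are nonempty, and the one of them which contains k is a smaller closed set.
 w ∉ M0 (no edge between D and M0 \\ D, w ~ x).  w ≠ v, a, b, c (they are anticomplete to D).  So w is adjacent to v, a, b or c.  x, u are nonadjacent to v, a, b, c and different from them.  Cases (forks, `Forkfree`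
 with arguments center, leaf, leaf, leaf, end where end ~ third leaf only):
 w ≁ v, w adjacent to exactly one leaf, say c:  (v, a, b, c, w).
 w ≁ v, w adjacent to at least two leaves, say a, b:   (w, a, b, x, u)   (u ~ x, u ≁ w, a, b).
 w ~ v, w nonadjacent to at least two leaves, say a, b:  (v, a, b, w, x)  (x ~ w, x ≁ v, a, b).
 w ~ v, w adjacent to at least two leaves, say a, b:  (w, a, b, x, u).
 So D is homogeneous, |D| ≥ 2, hence D = univ by `hp`, but v ∉ D: contradiction.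
-/

set_option autoImplicit false
set_option linter.unusedSectionVars false
set_option linter.unusedVariables false

namespace Pool.Agent.H92.TF

open SimpleGraph Finset Pool.Agent.H92.TD

/-- The last step: a vertex `w` which distinguishes the adjacent vertices `x`, `u`. -/
private theorem fork_fin {V : Type} {G : SimpleGraph V} (hf : Forkfree G) {v a b c w x u : V}
    (hva : G.Adj v a) (hvb : G.Adj v b) (hvc : G.Adj v c) (hab : a ≠ b) (hbc : b ≠ c) (hac : a ≠ c)
    (nab : ¬ G.Adj a b) (nbc : ¬ G.Adj b c) (nac : ¬ G.Adj a c)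
    (hx : x ≠ v ∧ ¬ G.Adj x v ∧ ¬ G.Adj x a ∧ ¬ G.Adj x b ∧ ¬ G.Adj x c)
    (hu : u ≠ v ∧ ¬ G.Adj u v ∧ ¬ G.Adj u a ∧ ¬ G.Adj u b ∧ ¬ G.Adj u c)
    (hwx : G.Adj w x) (hwu : ¬ G.Adj w u) (hxu : G.Adj x u)
    (hw : G.Adj w v ∨ G.Adj w a ∨ G.Adj w b ∨ G.Adj w c) : False := by
  have hwv : w ≠ v := fun h => hx.2.1 (by rw [← h]; exact hwx.symm)
  have hwa : w ≠ a := fun h => hx.2.2.1 (by rw [← h]; exact hwx.symm)
  have hwb : w ≠ b := fun h => hx.2.2.2.1 (by rw [← h]; exact hwx.symm)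
  have hwc : w ≠ c := fun h => hx.2.2.2.2 (by rw [← h]; exact hwx.symm)
  have huw : u ≠ w := fun h => hu.2.1 (by
    exfalso
    rcases hw with h1 | h1 | h1 | h1
    · exact hu.2.1 (by rw [h]; exact h1)
    · exact hu.2.2.1 (by rw [h]; exact h1)
    · exact hu.2.2.2.1 (by rw [h]; exact h1)
    · exact hu.2.2.2.2 (by rw [h]; exact h1))
  have hxa : x ≠ a := fun h => hx.2.1 (by rw [h]; exact hva.symm)
  have hxb : x ≠ b := fun h => hx.2.1 (by rw [h]; exact hvb.symm)
  have hxc : x ≠ c := fun h => hx.2.1 (by rw [h]; exact hvc.symm)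
  -- two adjacent leaves
  have L1 : ∀ p q : V, G.Adj w p → G.Adj w q → p ≠ q → ¬ G.Adj p q → x ≠ p → x ≠ q →
      ¬ G.Adj x p → ¬ G.Adj x q → ¬ G.Adj u p → ¬ G.Adj u q → False := by
    intro p q h1 h2 h3 h4 h5 h6 h7 h8 h9 h10
    exact hf w p q x u h1 h2 hwx hxu h3 (Ne.symm h6) (Ne.symm h5) h4 (fun h => h8 h.symm)
      (fun h => h7 h.symm) huw (fun h => hwu h.symm) h9 h10
  -- two nonadjacent leaves, `w ~ v`
  have L2 : ∀ p q : V, G.Adj w v → G.Adj v p → G.Adj v q → ¬ G.Adj w p → ¬ G.Adj w q → w ≠ p →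
      w ≠ q → p ≠ q → ¬ G.Adj p q → ¬ G.Adj x p → ¬ G.Adj x q → False := by
    intro p q h0 h1 h2 h3 h4 h5 h6 h7 h8 h9 h10
    exact hf v p q w x h1 h2 h0.symm hwx h7 (Ne.symm h6) (Ne.symm h5) h8 (fun h => h4 h.symm)
      (fun h => h3 h.symm) hx.1 hx.2.1 h9 h10
  -- one adjacent leaf, `w` not adjacent to `v`
  have L3 : ∀ p q r : V, ¬ G.Adj w v → G.Adj v p → G.Adj v q → G.Adj v r → G.Adj w r →
      ¬ G.Adj w p → ¬ G.Adj w q → p ≠ q → q ≠ r → p ≠ r → ¬ G.Adj p q → ¬ G.Adj q r →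
      ¬ G.Adj p r → False := by
    intro p q r h0 h1 h2 h3 h4 h5 h6 h7 h8 h9 h10 h11 h12
    exact hf v p q r w h1 h2 h3 h4.symm h7 h8 h9 h10 h11 h12 hwv h0 h5 h6
  by_cases ea : G.Adj w a
  · by_cases eb : G.Adj w b
    · exact L1 a b ea eb hab nab hxa hxb hx.2.2.1 hx.2.2.2.1 hu.2.2.1 hu.2.2.2.1
    · by_cases ec : G.Adj w c
      · exact L1 a c ea ec hac nac hxa hxc hx.2.2.1 hx.2.2.2.2 hu.2.2.1 hu.2.2.2.2
      · by_cases ev : G.Adj w v
        · exact L2 b c ev hvb hvc eb ec hwb hwc hbc nbc hx.2.2.2.1 hx.2.2.2.2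
        · exact L3 b c a ev hvb hvc hva ea eb ec hbc (Ne.symm hac) (Ne.symm hab) nbc
            (fun h => nac h.symm) (fun h => nab h.symm)
  · by_cases eb : G.Adj w b
    · by_cases ec : G.Adj w c
      · exact L1 b c eb ec hbc nbc hxb hxc hx.2.2.2.1 hx.2.2.2.2 hu.2.2.2.1 hu.2.2.2.2
      · by_cases ev : G.Adj w v
        · exact L2 a c ev hva hvc ea ec hwa hwc hac nac hx.2.2.1 hx.2.2.2.2
        · exact L3 a c b ev hva hvc hvb eb ea ec hac (Ne.symm hbc) hab nac
            (fun h => nbc h.symm) nab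
    · by_cases ev : G.Adj w v
      · exact L2 a b ev hva hvb ea eb hwa hwb hab nab hx.2.2.1 hx.2.2.2.1
      · by_cases ec : G.Adj w c
        · exact L3 a b c ev hva hvb hvc ec ea eb hab hbc hac nab nbc nac
        · rcases hw with h | h | h | h
          · exact ev h
          · exact ea h
          · exact eb h
          · exact ec h

theorem clawK2free_of_prime {V : Type} [Fintype V] {G : SimpleGraph V} (hp : PrimeG G)
    (hf : Forkfree G) : ClawK2free G := by
  classical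
  intro v a b c k l hva hvb hvc hab hbc hac nab nbc nac hkl nkv nka nkb nkc nlv nla nlb nlc
  have hkv : k ≠ v := fun h => nlv (by rw [← h]; exact hkl.symm)
  have hlv : l ≠ v := fun h => nkv (by rw [← h]; exact hkl)
  obtain ⟨M0, hM0⟩ : ∃ M0 : Finset V, ∀ x, x ∈ M0 ↔
      (x ≠ v ∧ ¬ G.Adj x v ∧ ¬ G.Adj x a ∧ ¬ G.Adj x b ∧ ¬ G.Adj x c) :=
    ⟨Finset.univ.filter fun x => x ≠ v ∧ ¬ G.Adj x v ∧ ¬ G.Adj x a ∧ ¬ G.Adj x b ∧ ¬ G.Adj x c,
      fun x => by simp⟩
  have hk : k ∈ M0 := (hM0 k).2 ⟨hkv, nkv, nka, nkb, nkc⟩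
  have hl : l ∈ M0 := (hM0 l).2 ⟨hlv, nlv, nla, nlb, nlc⟩
  obtain ⟨C, hC⟩ : ∃ C : Finset (Finset V), ∀ D, D ∈ C ↔
      (D ⊆ M0 ∧ k ∈ D ∧ ∀ x ∈ D, ∀ y ∈ M0, y ∉ D → ¬ G.Adj x y) :=
    ⟨M0.powerset.filter fun D => k ∈ D ∧ ∀ x ∈ D, ∀ y ∈ M0, y ∉ D → ¬ G.Adj x y,
      fun D => by rw [Finset.mem_filter, Finset.mem_powerset]⟩
  have hCne : C.Nonempty := ⟨M0, (hC M0).2 ⟨Finset.Subset.refl _, hk, fun x _ y hy hy' => absurd hy hy'⟩⟩
  obtain ⟨D, hDC, hmin⟩ := Finset.exists_min_image C Finset.card hCne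
  obtain ⟨hDM, hkD, hcl⟩ := (hC D).1 hDC
  have hlD : l ∈ D := by
    by_contra h
    exact hcl k hkD l hl h hkl
  have hhom : ∀ w, w ∉ D → (∀ x ∈ D, G.Adj w x) ∨ (∀ x ∈ D, ¬ G.Adj w x) := by
    intro w hw
    by_contra hcon
    rw [not_or] at hcon
    obtain ⟨h1, h2⟩ := hcon
    push Not at h1 h2
    obtain ⟨x0, hx0, hwx0⟩ := h1
    obtain ⟨x1, hx1, hwx1⟩ := h2
    obtain ⟨x, hx, u, hu, hxu, hwx, hwu⟩ : ∃ x ∈ D, ∃ u ∈ D, G.Adj x u ∧ G.Adj w x ∧
        ¬ G.Adj w u := by
      by_contra hno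
      push Not at hno
      by_cases hwk : G.Adj w k
      · have hD1 : D.filter (fun y => G.Adj w y) ∈ C := by
          rw [hC]
          refine ⟨(Finset.filter_subset _ _).trans hDM, Finset.mem_filter.2 ⟨hkD, hwk⟩, ?_⟩
          intro x hx y hy hy' hxy
          rw [Finset.mem_filter] at hx hy'
          by_cases hyD : y ∈ D
          · exact hy' ⟨hyD, hno x hx.1 y hyD hxy hx.2⟩
          · exact hcl x hx.1 y hy hyD hxy
        have h3 := hmin _ hD1
        have h4 : (D.filter (fun y => G.Adj w y)).card < D.card := by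
          apply Finset.card_lt_card
          rw [Finset.ssubset_iff_of_subset (Finset.filter_subset _ _)]
          exact ⟨x0, hx0, fun h => hwx0 (Finset.mem_filter.1 h).2⟩
        omega
      · have hD1 : D.filter (fun y => ¬ G.Adj w y) ∈ C := by
          rw [hC]
          refine ⟨(Finset.filter_subset _ _).trans hDM, Finset.mem_filter.2 ⟨hkD, hwk⟩, ?_⟩
          intro x hx y hy hy' hxy
          rw [Finset.mem_filter] at hx hy'
          by_cases hyD : y ∈ D
          · have h5 : G.Adj w y := by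
              by_contra h6
              exact hy' ⟨hyD, h6⟩
            exact hx.2 (hno y hyD x hx.1 hxy.symm h5)
          · exact hcl x hx.1 y hy hyD hxy
        have h3 := hmin _ hD1
        have h4 : (D.filter (fun y => ¬ G.Adj w y)).card < D.card := by
          apply Finset.card_lt_card
          rw [Finset.ssubset_iff_of_subset (Finset.filter_subset _ _)]
          exact ⟨x1, hx1, fun h => (Finset.mem_filter.1 h).2 hwx1⟩
        omega
    have hwM : w ∉ M0 := fun h => hcl x hx w h hw hwx.symm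
    have hxM := (hM0 x).1 (hDM hx)
    have huM := (hM0 u).1 (hDM hu)
    have hwv : w ≠ v := fun h => hxM.2.1 (by rw [← h]; exact hwx.symm)
    have hadj : G.Adj w v ∨ G.Adj w a ∨ G.Adj w b ∨ G.Adj w c := by
      by_contra h
      simp only [not_or] at h
      exact hwM ((hM0 w).2 ⟨hwv, h⟩)
    exact fork_fin hf hva hvb hvc hab hbc hac nab nbc nac hxM huM hwx hwu hxu hadj
  have hcard : 2 ≤ D.card := by
    have h1 : ({k, l} : Finset V) ⊆ D := by
      intro y hy
      rw [Finset.mem_insert, Finset.mem_singleton] at hy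
      rcases hy with rfl | rfl
      · exact hkD
      · exact hlD
    have h2 := Finset.card_le_card h1
    rw [Finset.card_pair hkl.ne] at h2
    exact h2
  have hD := hp D hhom hcard
  have hv : v ∈ D := by
    rw [hD]
    exact Finset.mem_univ v
  exact ((hM0 v).1 (hDM hv)).1 rfl

end Pool.Agent.H92.TF
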