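import Mathlib
import Pool.Agent.H92.TD.Asm2
import Pool.Agent.H92.TF.FDefs

/-!
The induction for a hereditary class of odd-hole-free graphs whose minimal counterexamples are
claw-free; the inductive hypothesis is available for all clique numbers.
-/

set_option autoImplicit false
set_option linter.unusedSectionVars false
set_option linter.unusedVariables false

namespace Pool.Agent.H92.TF

open SimpleGraph Finset Pool.Agent.H92.TD

/-- from a colouring of the induced subgraph on `s` to a colouring of `V` -/
theorem gen2_ext {V : Type} [Fintype V] {G : SimpleGraph V} {n : ℕ} (s : Set V)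
    (hc : ∃ c0 : ↥s → Bool, ∀ K : Finset ↥s,
      (G.induce s).IsNClique (n + 1) K → ∀ b : Bool, ¬ ∀ x ∈ K, c0 x = b) :
    ∃ c : V → Bool, ∀ K : Finset V, (∀ x ∈ K, x ∈ s) → G.IsNClique (n + 1) K →
      ∀ b : Bool, ¬ ∀ x ∈ K, c x = b := by
  classical
  obtain ⟨c0, hc0⟩ := hc
  refine ⟨fun x => if hx : x ∈ s then c0 ⟨x, hx⟩ else true, ?_⟩
  intro K hKs hK b hb
  obtain ⟨K', hK', hKK⟩ := asm_lift (s := s) hK hKs
  refine hc0 K' hK' b ?_
  intro x hx
  have h1 := hb x.1 (hKK x hx)
  have h2 : (if hx : x.1 ∈ s then c0 ⟨x.1, hx⟩ else true) = b := h1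
  rw [dif_pos x.2] at h2
  exact h2

theorem gen2_card {V : Type} [Fintype V] (s : Set V) [Fintype ↥s] {z : V} (hz : z ∉ s) :
    Fintype.card ↥s < Fintype.card V :=
  Fintype.card_subtype_lt (x := z) hz

/-- The induction. `P` is a hereditary class of odd-hole-free graphs. -/
theorem core_gen2 (P : ∀ V : Type, SimpleGraph V → Prop)
    (hdel : ∀ (V : Type) (G : SimpleGraph V) (s : Set V), P V G → P _ (G.induce s))
    (hcl : ∀ (V : Type) [Fintype V] (G : SimpleGraph V) (m : ℕ), P V G → MinCE G m → SubDiv G →
      Clawfree G)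
    (hodd : ∀ (V : Type) [Fintype V] (G : SimpleGraph V), P V G → OddHoleFree G) :
    ∀ (m : ℕ), 1 ≤ m → ∀ (V : Type) [Fintype V] (G : SimpleGraph V),
      G.CliqueFree (m + 2) → P V G →
      ∃ c : V → Bool, ∀ K : Finset V, G.IsNClique (m + 1) K → ∀ b : Bool,
        ¬ ∀ x ∈ K, c x = b := by
  have main : ∀ n : ℕ, ∀ (m : ℕ), 1 ≤ m → ∀ (V : Type) [Fintype V] (G : SimpleGraph V),
      Fintype.card V = n → G.CliqueFree (m + 2) → P V G →
      ∃ c : V → Bool, ∀ K : Finset V, G.IsNClique (m + 1) K → ∀ b : Bool,
        ¬ ∀ x ∈ K, c x = b := by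
    intro n
    induction n using Nat.strong_induction_on with
    | _ n ih =>
      intro m hm V _ G hn hf hP
      classical
      by_contra hcon
      push Not at hcon
      have hbad : ∀ c : V → Bool, ∃ b : Bool, ∃ K : Finset V, G.IsNClique (m + 1) K ∧
          ∀ x ∈ K, c x = b := by
        intro c
        obtain ⟨K, hK, b, hb⟩ := hcon c
        exact ⟨b, K, hK, hb⟩
      have hmin : ∀ z : V, ∃ c : V → Bool, St G m c z := by
        intro z
        apply gen_min z
        have hlt : Fintype.card ↥({z}ᶜ : Set V) < n := by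
          rw [← hn]
          exact Fintype.card_subtype_lt (x := z) (by simp)
        exact ih _ hlt m hm ↥({z}ᶜ : Set V) (G.induce ({z}ᶜ : Set V)) rfl
          (hf.comap ⟨(SimpleGraph.Embedding.induce _).toCopy⟩) (hdel V G _ hP)
      have hM : MinCE G m := ⟨hm, hf, hbad, hmin, C5free_of (hodd V G hP)⟩
      have hsub : SubDiv G := by
        intro D hD k hk hDk
        obtain ⟨z, hz⟩ : ∃ z, z ∉ D := by
          by_contra hall
          push Not at hall
          exact hD (Finset.eq_univ_iff_forall.2 hall)
        have hz' : z ∉ (D : Set V) := by exact_mod_cast hz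
        have hlt : Fintype.card ↥(D : Set V) < n := by
          rw [← hn]
          exact Fintype.card_subtype_lt (x := z) hz'
        have hfree : (G.induce (D : Set V)).CliqueFree (k + 2) := by
          intro K hK
          obtain ⟨L, hL, hLS⟩ := asm_push hK
          exact hDk L (fun x hx => by exact_mod_cast hLS x hx) hL
        obtain ⟨c, hc⟩ := gen2_ext (n := k) (D : Set V) (ih _ hlt k hk ↥(D : Set V)
          (G.induce (D : Set V)) rfl hfree (hdel V G _ hP))
        exact ⟨c, fun K hKD hK b hb => hc K (fun x hx => by exact_mod_cast hKD hx) hK b hb⟩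
      have hcl' : Clawfree G := hcl V G m hP hM hsub
      by_cases h2 : 2 ≤ m
      · exact no_CE hM hcl' h2
      · have hm1 : m = 1 := by omega
        subst hm1
        obtain ⟨c, hc⟩ := two_col hf (hodd V G hP)
        obtain ⟨b, K, hK, hb⟩ := hbad c
        have hcard : 1 < K.card := by rw [hK.2]; omega
        obtain ⟨x, hx, y, hy, hxy⟩ := Finset.one_lt_card.1 hcard
        exact hc x y (hK.1 hx hy hxy) ((hb x hx).trans (hb y hy).symm)
  intro m hm V _ G hf hP
  exact main _ m hm V G rfl hf hP

end Pool.Agent.H92.TF
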