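import Mathlib
import Pool.Agent.H92.TD.Defs
import Pool.Agent.H92.TF.FDefs

/-!
Row TF_Hom.  A minimal counterexample is prime.
PROOF.  Let D be homogeneous (every w outside D is complete or anticomplete to D), 2 ≤ |D|, D ≠ univ; contradiction with `h.bad`.
CASE 1: D has no edge.  Take z, x ∈ D, z ≠ x, c with St G m c z (`h.min z`), c' := update c z (c x).  `h.bad c'`: K, an (m+1)-clique with c' = b on K.  If z ∉ K: c' = c on K, so z ∈ K by St, contradiction.
 So z ∈ K.  K' := insert x (K.erase z): x ∉ K (x, z ∈ D nonadjacent, x ≠ z); every k ∈ K.erase z is adjacent to z, so k ∉ D (D has no edge), so (homogeneous) k is adjacent to x.  So K' is an (m+1)-clique,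
 c = b on K' (c x = c' z = b), z ∉ K': contradiction with St G m c z.
CASE 2: D has an edge.  Let n + 1 be the largest size of a clique contained in D, so n ≥ 1 (max over D.powerset), K_D ⊆ D an (n+1)-clique.  `hs D _ n` gives c1.  Take z ∈ D and c2 with St G m c2 z.
 c x := if x ∈ D then c1 x else c2 x.  `h.bad c`: K, b.  If K ∩ D = ∅: c2 = b on K and z ∉ K, contradiction with St.
 Otherwise d ∈ K ∩ D.  Every k ∈ K \\ D is adjacent to d, so complete to D.  So (K \\ D) ∪ K_D is a clique; by `card_le_of_clique` |K \\ D| + (n+1) ≤ m + 1 = |K \\ D| + |K ∩ D|, so |K ∩ D| ≥ n + 1, and K ∩ D ⊆ D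
 is a clique, so |K ∩ D| = n + 1 and c1 = b on K ∩ D: contradiction with the choice of c1.
-/

set_option autoImplicit false
set_option linter.unusedSectionVars false
set_option linter.unusedVariables false

namespace Pool.Agent.H92.TF

open SimpleGraph Finset Pool.Agent.H92.TD

theorem prime_of {V : Type} [Fintype V] {G : SimpleGraph V} {m : ℕ} (h : MinCE G m)
    (hs : SubDiv G) : PrimeG G := by
  classical
  intro D hD h2
  by_contra hne
  have hD' : ∀ w, w ∉ D → ∀ x ∈ D, G.Adj w x → ∀ y ∈ D, G.Adj w y := by
    intro w hw x hx hwx y hy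
    rcases hD w hw with h1 | h1
    · exact h1 y hy
    · exact absurd hwx (h1 x hx)
  by_cases hE : ∃ x ∈ D, ∃ y ∈ D, G.Adj x y
  · -- Case 2: `D` has an edge
    obtain ⟨x, hx, y, hy, hxy⟩ := hE
    have hS : ∀ K : Finset V, K ∈ D.powerset.filter (fun K : Finset V => G.IsClique (K : Set V)) ↔
        K ⊆ D ∧ G.IsClique (K : Set V) := by
      intro K
      rw [Finset.mem_filter, Finset.mem_powerset]
    obtain ⟨KD, hKD, hmax⟩ := (D.powerset.filter
      (fun K : Finset V => G.IsClique (K : Set V))).exists_max_image Finset.card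
      ⟨∅, (hS ∅).2 ⟨Finset.empty_subset _, by simp⟩⟩
    obtain ⟨hKD1, hKD2⟩ := (hS KD).1 hKD
    have hmax' : ∀ K : Finset V, K ⊆ D → G.IsClique (K : Set V) → K.card ≤ KD.card :=
      fun K h1 h3 => hmax K ((hS K).2 ⟨h1, h3⟩)
    have hpair : ({x, y} : Finset V).card ≤ KD.card := by
      refine hmax' _ ?_ ?_
      · intro v hv
        rw [Finset.mem_insert, Finset.mem_singleton] at hv
        rcases hv with rfl | rfl
        · exact hx
        · exact hy
      · rw [Finset.coe_insert, Finset.coe_singleton]
        rw [SimpleGraph.isClique_pair]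
        exact fun _ => hxy
    rw [Finset.card_pair hxy.ne] at hpair
    obtain ⟨n, hn⟩ : ∃ n, KD.card = n + 1 := ⟨KD.card - 1, by omega⟩
    obtain ⟨c1, hc1⟩ := hs D hne n (by omega) (by
      intro K hK hKc
      have h3 := hmax' K hK hKc.1
      rw [hKc.2] at h3
      omega)
    obtain ⟨c2, hc2⟩ := h.min x
    obtain ⟨b, K, hK, hb⟩ := h.bad (fun v => if v ∈ D then c1 v else c2 v)
    by_cases hKD0 : ∃ d ∈ K, d ∈ D
    · obtain ⟨d, hdK, hdD⟩ := hKD0
      have hcl : G.IsClique (((K \ D) ∪ KD : Finset V) : Set V) := by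
        intro u hu v hv huv
        rw [Finset.mem_coe, Finset.mem_union, Finset.mem_sdiff] at hu hv
        have key : ∀ w, w ∈ K → w ∉ D → ∀ k ∈ KD, G.Adj w k := by
          intro w hw hwD k hk
          exact hD' w hwD d hdD (hK.1 hw hdK (fun e => hwD (e ▸ hdD))) k (hKD1 hk)
        rcases hu with hu | hu
        · rcases hv with hv | hv
          · exact hK.1 hu.1 hv.1 huv
          · exact key u hu.1 hu.2 v hv
        · rcases hv with hv | hv
          · exact (key v hv.1 hv.2 u hu).symm
          · exact hKD2 hu hv huv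
      have h3 := card_le_of_clique h.free hcl
      rw [Finset.card_union_of_disjoint (by
        rw [Finset.disjoint_left]
        intro v hv hv'
        exact (Finset.mem_sdiff.1 hv).2 (hKD1 hv'))] at h3
      have h4 := Finset.card_sdiff_add_card_inter K D
      rw [hK.2] at h4
      have h5 : G.IsClique ((K ∩ D : Finset V) : Set V) :=
        hK.1.subset (by exact_mod_cast Finset.inter_subset_left)
      have h6 := hmax' (K ∩ D) Finset.inter_subset_right h5
      refine hc1 (K ∩ D) Finset.inter_subset_right ⟨h5, by omega⟩ b ?_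
      intro v hv
      rw [Finset.mem_inter] at hv
      have h7 := hb v hv.1
      rwa [if_pos hv.2] at h7
    · have hKD1 : ∀ d ∈ K, d ∉ D := fun d hd hdD => hKD0 ⟨d, hd, hdD⟩
      have hz : x ∈ K := hc2 K hK b (by
        intro v hv
        have h7 := hb v hv
        rwa [if_neg (hKD1 v hv)] at h7)
      exact hKD1 x hz hx
  · -- Case 1: `D` has no edge
    have hE' : ∀ x ∈ D, ∀ y ∈ D, ¬ G.Adj x y := fun x hx y hy hxy => hE ⟨x, hx, y, hy, hxy⟩
    obtain ⟨z, hz, x, hx, hzx⟩ := Finset.one_lt_card.1 (show 1 < D.card by omega)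
    obtain ⟨c, hc⟩ := h.min z
    obtain ⟨b, K, hK, hb⟩ := h.bad (Function.update c z (c x))
    have hzK : z ∈ K := by
      by_contra hzK
      refine hzK (hc K hK b ?_)
      intro v hv
      have h3 : v ≠ z := fun e => hzK (e ▸ hv)
      have h4 := hb v hv
      rwa [Function.update_of_ne h3] at h4
    have hcx : c x = b := by
      have h4 := hb z hzK
      rwa [Function.update_self] at h4
    have hxK : x ∉ K := fun hxK => hE' z hz x hx (hK.1 hzK hxK hzx)
    have hadj : ∀ k ∈ K.erase z, G.Adj x k := by
      intro k hk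
      rw [Finset.mem_erase] at hk
      have h3 : G.Adj z k := hK.1 hzK hk.2 (Ne.symm hk.1)
      have h4 : k ∉ D := fun hkD => hE' z hz k hkD h3
      exact (hD' k h4 z hz h3.symm x hx).symm
    have hK1 : G.IsNClique (m + 1) (insert x (K.erase z)) := by
      refine clique_insert ⟨hK.1.subset (by exact_mod_cast Finset.erase_subset _ _), ?_⟩ hadj
      rw [Finset.card_erase_of_mem hzK, hK.2]
      rfl
    have h5 : z ∈ insert x (K.erase z) := by
      refine hc _ hK1 b ?_
      intro v hv
      rw [Finset.mem_insert, Finset.mem_erase] at hv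
      rcases hv with rfl | hv
      · exact hcx
      · have h4 := hb v hv.2
        rwa [Function.update_of_ne hv.1] at h4
    rw [Finset.mem_insert, Finset.mem_erase] at h5
    rcases h5 with h5 | h5
    · exact hzx h5
    · exact h5.1 rfl

end Pool.Agent.H92.TF
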