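import Mathlib
import Pool.Agent.H92.TF.Gen2
import Pool.Agent.H92.TF.Hom
import Pool.Agent.H92.TF.Fork

/-!
MP_5aa732_co: assembly of the theorem on fork-free odd-hole-free graphs.
-/

set_option autoImplicit false
set_option linter.unusedSectionVars false
set_option linter.unusedVariables false

namespace Pool.Agent.H92.TF

open SimpleGraph Finset Pool.Agent.H92.TD

variable {V : Type} [Fintype V] {G : SimpleGraph V} {m : ℕ}

theorem Forkfree_of
    (h : IsEmpty (SimpleGraph.fromEdgeSet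
      ({s(0, 1), s(0, 2), s(0, 3), s(3, 4)} : Set (Sym2 (Fin 5))) ↪g G)) :
    Forkfree G := by
  intro v a b c d hva hvb hvc hcd hab hbc hac nab nbc nac hdv ndv nda ndb
  have e1 : v ≠ a := G.ne_of_adj hva
  have e2 : v ≠ b := G.ne_of_adj hvb
  have e3 : v ≠ c := G.ne_of_adj hvc
  have e4 : c ≠ d := G.ne_of_adj hcd
  have e5 : d ≠ a := fun h => ndv (by rw [h]; exact hva.symm)
  have e6 : d ≠ b := fun h => ndv (by rw [h]; exact hvb.symm)
  have hf : Function.Injective (![v, a, b, c, d] : Fin 5 → V) := by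
    intro i j hij
    fin_cases i <;> fin_cases j <;> simp_all
  refine h.false ⟨⟨(![v, a, b, c, d] : Fin 5 → V), hf⟩, ?_⟩
  intro i j
  have nba : ¬ G.Adj b a := fun h => nab h.symm
  have ncb : ¬ G.Adj c b := fun h => nbc h.symm
  have nca : ¬ G.Adj c a := fun h => nac h.symm
  have nvd : ¬ G.Adj v d := fun h => ndv h.symm
  have nad : ¬ G.Adj a d := fun h => nda h.symm
  have nbd : ¬ G.Adj b d := fun h => ndb h.symm
  have hav := hva.symm
  have hbv := hvb.symm
  have hcv := hvc.symm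
  have hdc := hcd.symm
  fin_cases i <;> fin_cases j <;>
    simp [SimpleGraph.fromEdgeSet_adj, hva, hvb, hvc, hcd, nab, nbc, nac, ndv, nda, ndb, nba, ncb, nca, nvd,
      nad, nbd, hav, hbv, hcv, hdc]

theorem forkfree_induce {V : Type} {G : SimpleGraph V} (s : Set V) (hk : Forkfree G) :
    Forkfree (G.induce s) := by
  intro v a b c d hva hvb hvc hcd hab hbc hac nab nbc nac hdv ndv nda ndb
  exact hk v a b c d hva hvb hvc hcd (fun h => hab (Subtype.ext h)) (fun h => hbc (Subtype.ext h))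
    (fun h => hac (Subtype.ext h)) nab nbc nac (fun h => hdv (Subtype.ext h)) ndv nda ndb

theorem oddHoleFree_induce' {V : Type} {G : SimpleGraph V} (s : Set V) (ho : OddHoleFree G) :
    OddHoleFree (G.induce s) := by
  intro k hk
  refine ⟨fun f => (ho k hk).false ?_⟩
  exact (SimpleGraph.Embedding.induce s).comp f

theorem core_fork (m : ℕ) (hm : 1 ≤ m) (V : Type) [Fintype V] (G : SimpleGraph V)
    (hf : G.CliqueFree (m + 2)) (ho : OddHoleFree G) (hk : Forkfree G) :
    ∃ c : V → Bool, ∀ K : Finset V, G.IsNClique (m + 1) K → ∀ b : Bool, ¬ ∀ x ∈ K, c x = b := by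
  refine core_gen2 (fun V G => Forkfree G ∧ OddHoleFree G) ?_ ?_ ?_ m hm V G hf ⟨hk, ho⟩
  · intro V G s hP
    exact ⟨forkfree_induce s hP.1, oddHoleFree_induce' s hP.2⟩
  · intro V _ G m hP hM hs
    exact clawfree_of2 hM (clawK2free_of_prime (prime_of hM hs) hP.1)
  · intro V _ G hP
    exact hP.2

theorem fasm_back [DecidableEq V] (ho : OddHoleFree G) (hk : Forkfree G) (S : Finset V)
    (hS : ∃ u ∈ S, ∃ v ∈ S, G.Adj u v) :
    ∃ A : Finset V, A ⊆ S ∧
      (∀ T : Finset V, T ⊆ A → G.IsClique (T : Set V) →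
          ∃ T' : Finset V, T' ⊆ S ∧ G.IsClique (T' : Set V) ∧ T.card < T'.card) ∧
      (∀ T : Finset V, T ⊆ S \ A → G.IsClique (T : Set V) →
          ∃ T' : Finset V, T' ⊆ S ∧ G.IsClique (T' : Set V) ∧ T.card < T'.card) := by
  refine asm_back_gen (fun _ _ => True) S ?_ hS
  intro m hm hf _
  exact core_fork m hm _ _ hf (oddHoleFree_induce _ ho) (forkfree_induce _ hk)

end Pool.Agent.H92.TF
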